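import Pool.Agent.PFD.StmtsD3

/-!
# Squad PFD, block D3, row SOX (helper31): the lift of `F V`
-/

open scoped BigOperators

noncomputable section

namespace Pool.Agent.PFD.D3.H31

theorem md_act {F V E : Type} [Field F] [CommGroup V] [Group E] (φ : E →* MulAut V)
    (Va : Subgroup V) (ψa : E →* MulAut Va) (hψa : ∀ e (u : Va), (ψa e u : V) = φ e u) (e : E)
    (x : MonoidAlgebra F Va) :
    MonoidAlgebra.mapDomainAlgHom F F Va.subtype (acV F ψa e x) =
      acV F φ e (MonoidAlgebra.mapDomainAlgHom F F Va.subtype x) := by
  induction x using MonoidAlgebra.induction_linear with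
  | zero => rw [map_zero, map_zero, map_zero]
  | add f g hf hg => rw [map_add, map_add, map_add, hf, hg, map_add]
  | single u r =>
    rw [acV_single]
    have h1 : ∀ (u : Va) (r : F), MonoidAlgebra.mapDomainAlgHom F F Va.subtype
        (MonoidAlgebra.single u r) = MonoidAlgebra.single (u : V) r := fun u r =>
      MonoidAlgebra.mapDomain_single
    rw [h1, h1, acV_single, hψa]

/-- row SOX -/
theorem sox (hrsu : RsuStmt) (hglx : GlxStmt) (hacw : AcwStmt) (hfbw : FbwStmt)
    (htsw : TswStmt) (hdvw : DvwStmt) (hnlw : NlwStmt) (hanw : AnwStmt) : SoxStmt := by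
  classical
  intro R F V E _ _ _ _ _ ℓ c o φ Va W _ h
  haveI := h.fin
  haveI : Fact ℓ.Prime := ⟨o.pr⟩
  haveI : CharP F ℓ := o.ch
  letI : Fintype Va := Fintype.ofFinite Va
  obtain ⟨ψa, hψa⟩ := hrsu V E φ Va h.sa
  obtain ⟨ψ, hψ⟩ := hrsu V E φ W h.sw
  have hcard : (Fintype.card E : F) ≠ 0 := by
    intro h0
    rw [CharP.cast_eq_zero_iff F ℓ, ← Nat.card_eq_fintype_card] at h0
    exact h.cop h0
  have hnt : Nontrivial Va := by
    obtain ⟨u, hu, hu1⟩ := h.nt
    exact ⟨⟨⟨u, hu⟩, 1, fun h0 => hu1 (congrArg Subtype.val h0)⟩⟩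
  obtain ⟨R1, _, _, ⟨G⟩⟩ := hglx ℓ R F Va E c ψa (h.pg.to_subgroup Va) hnt hcard
  letI : Fintype G.J := G.fJ
  obtain ⟨A, hA⟩ := hacw R R1 W E G.act ψ
  obtain ⟨fb, hfb⟩ := hfbw R F V R1 c Va W G.rho h.dis h.sup
  obtain ⟨tw, htw, htw1, htwd, htwa⟩ := htsw R R1 W E G.J G.act ψ A G.t G.y G.y' hA G.h1 G.du
    G.t_act
  obtain ⟨vw, hvw, hvwm, hvw0, hvwa⟩ := hdvw R R1 W E G.act ψ A G.v hA G.v_mul G.v_act
  obtain ⟨P, hPN, hPa, hP⟩ := hnlw R R1 W E G.act ψ A G.eps G.N hA G.eps_act G.eps_nil
  refine ⟨MonoidAlgebra R1 W, inferInstance, inferInstance, ⟨?_⟩⟩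
  exact
    { act := A
      fb := fb
      fb_act := by
        intro e s
        induction s using MonoidAlgebra.induction_linear with
        | zero => rw [map_zero, map_zero, map_zero]
        | add f g hf hg => rw [map_add, map_add, hf, hg, map_add, map_add]
        | single w r =>
          rw [hA, hfb, hfb, G.rho_act, md_act φ Va ψa hψa, map_mul, hψ, MonoidAlgebra.of_apply,
            MonoidAlgebra.of_apply, acV_single]
      om := MonoidAlgebra.of R1 W
      om_q := by
        intro w
        rw [MonoidAlgebra.of_apply, hfb, map_one, map_one, one_mul]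
      om_act := by
        intro e w w' hw
        rw [MonoidAlgebra.of_apply, MonoidAlgebra.of_apply, hA, map_one]
        congr 1
        apply Subtype.ext
        rw [hψ, hw]
      J := G.J
      fJ := G.fJ
      y := fun j => MonoidAlgebra.single 1 (G.y j)
      y' := fun j => MonoidAlgebra.single 1 (G.y' j)
      t := tw
      h1 := by
        intro a
        exact htw1 a
      du := by
        intro i j u v
        refine (htwd i j u v).trans ?_
        congr
      t_act := htwa
      v := vw
      v_mul := hvwm
      v_om := fun w => hvw0 w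
      v_act := hvwa
      wt := G.wt
      wt_pos := G.wt_pos
      t_v := by
        intro a
        induction a using MonoidAlgebra.induction_linear with
        | zero => rw [map_zero, map_zero, mul_zero]
        | add f g hf hg => rw [map_add, map_add, hf, hg, map_add, mul_add]
        | single w r =>
          rw [hvw, htw, htw]
          by_cases hw : w = 1
          · rw [if_pos hw, if_pos hw, G.t_v]
          · rw [if_neg hw, if_neg hw, mul_zero]
      P := P
      P_v := by
        intro a
        induction a using MonoidAlgebra.induction_linear with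
        | zero => rw [map_zero]; exact P.zero_mem
        | add f g hf hg => rw [map_add]; exact P.add_mem hf hg
        | single w r =>
          rw [hvw, hP]
          intro w'
          rw [MonoidAlgebra.coeff_single, Finsupp.single_apply]
          by_cases hw : w = w'
          · rw [if_pos hw, G.eps_v]
          · rw [if_neg hw, map_zero]
      P_act := hPa
      N := G.N
      P_nil := hPN
      ann := hanw R F V E R1 ℓ c o φ Va W G.rho G.act ψ A fb G.eps G.sg h hψ hA hfb G.eps_act
        G.sg_eps G.sg_q }

end Pool.Agent.PFD.D3.H31
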