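import Pool.Agent.PFD.StmtsD5b
import Pool.Agent.Helper66_KF.Ring

/-!
# Squad PFD, block D5b, row KSM (helper31): Brauer's formula for the number of characters
-/

open scoped BigOperators

noncomputable section

namespace Pool.Agent.PFD.H31

open Pool.Agent.Helper51_AWC Pool.Agent.Helper79_WRA Pool.Agent.PP Pool.Agent.PP.KF
open Pool.Agent.PP.K9 Pool.Agent.PP.K9.H97 Pool.Agent.PP.H75 Pool.Agent.PP.T3 Pool.Agent.PP.T2
open Pool.Agent.PP.T5
open Pool.Agent.PP.TB (Zd Star iz cz mm Az Pw)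

attribute [local instance] Ideal.Quotient.field

/-- divisibility in the local ring -/
theorem dvd_RM {ℓ : ℕ} (hℓ : ℓ.Prime) (M : Ideal (integralClosure ℤ ℂ)) [M.IsMaximal]
    (hM : (ℓ : integralClosure ℤ ℂ) ∈ M) (t : ℕ) :
    ∀ n : ℤ, (n : ℂ) / (ℓ : ℂ) ^ t ∈ RM M → (ℓ : ℤ) ^ t ∣ n := by
  have hl0 : (ℓ : ℂ) ≠ 0 := by exact_mod_cast hℓ.ne_zero
  induction t with
  | zero => intro n _; simp
  | succ t ih =>
    intro n hn
    have h1 : (n : ℂ) / (ℓ : ℂ) ^ t ∈ RM M := by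
      have h2 := (RM M).mul_mem (rr_nat (M := M) ℓ).1 hn
      have h3 : (ℓ : ℂ) * ((n : ℂ) / (ℓ : ℂ) ^ (t + 1)) = (n : ℂ) / (ℓ : ℂ) ^ t := by
        rw [pow_succ]
        field_simp
      rwa [h3] at h2
    obtain ⟨k, rfl⟩ := ih n h1
    have h4 : (k : ℂ) / ℓ ∈ RM M := by
      have h5 : (((ℓ : ℤ) ^ t * k : ℤ) : ℂ) / (ℓ : ℂ) ^ (t + 1) = (k : ℂ) / ℓ := by
        push_cast
        rw [pow_succ]
        field_simp
      rwa [h5] at hn
    have h6 : rr M (k : ℂ) = 0 := by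
      have h7 := rr_mul (rr_nat (M := M) ℓ).1 h4
      have h8 : (ℓ : ℂ) * ((k : ℂ) / ℓ) = k := by field_simp
      have h9 : rr M ((ℓ : ℤ) : ℂ) = 0 := (dvd_of_rr hℓ hM).2 (dvd_refl _)
      rw [Int.cast_natCast] at h9
      rw [h8, h9, zero_mul] at h7
      exact h7
    obtain ⟨k', rfl⟩ := (dvd_of_rr hℓ hM).1 h6
    exact ⟨k', by ring⟩

/-- the weighted sum for one character is `iz` -/
theorem ksm_one (tgi : TV.TgiStmt) (zcp : TB.ZcpStmt) (poz : TB.PozStmt) (pjz : TB.PjzStmt)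
    (ℓ : ℕ) [hℓ : Fact ℓ.Prime] (M : Ideal (integralClosure ℤ ℂ)) [M.IsMaximal]
    (hM : (ℓ : integralClosure ℤ ℂ) ∈ M) (G : Type) [Group G] [Finite G] (e : G → FF M)
    (V : Subgroup G) (γ : G → FF M) (b : G → G → FF M) (hZ : Zd ℓ e V V γ b)
    (hS : Star M ℓ e V V γ b) (χ : G → ℂ) (hχ : χ ∈ IrrE M e) :
    ∑ᶠ v : V, (cz V V γ (v : G) : ℂ) * mm M ℓ (Cu (v : G)) v (b v) χ χ = (iz V V γ : ℂ) := by
  classical
  have hp : ℓ.Prime := hℓ.out
  have hVf : Fintype V := Fintype.ofFinite V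
  have hl0 : (ℓ : ℂ) ≠ 0 := by exact_mod_cast hp.ne_zero
  have hV0 : (Nat.card V : ℂ) ≠ 0 := by exact_mod_cast (Nat.card_pos (α := V)).ne'
  have hχI : χ ∈ Irr G := hχ.1
  obtain ⟨-, -, -, hi0, hil, hcz, hc1⟩ := zcp ℓ M hM G e V V γ b hZ
  have hiC : (iz V V γ : ℂ) ≠ 0 := by exact_mod_cast hi0.ne'
  have hiR : ((iz V V γ : ℂ))⁻¹ ∈ RM M := by
    have h1 : rr M (((iz V V γ : ℕ) : ℤ) : ℂ) ≠ 0 := fun h =>
      hil (by exact_mod_cast (dvd_of_rr hp hM).1 h)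
    rw [Int.cast_natCast] at h1
    exact (inv_RM (rr_nat (M := M) _).1 h1).1
  -- the sum
  obtain ⟨A, hA⟩ : ∃ A : ℂ, A = ∑ᶠ v : V, (cz V V γ (v : G) : ℂ) *
      mm M ℓ (Cu (v : G)) v (b v) χ χ := ⟨_, rfl⟩
  rw [← hA]
  -- step 1: `A` is in the local ring
  have hAR : A ∈ RM M := by
    have h1 := hS χ hχ χ hχ (1 : V →* ℂ)
    have h2 : (Nat.card V : ℂ)⁻¹ * ∑ᶠ v : V, Az M ℓ V V γ b χ χ (v : G) * (1 : V →* ℂ) v⁻¹ =
        A := by
      rw [hA, mul_finsum]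
      refine finsum_congr fun v => ?_
      rw [MonoidHom.one_apply]
      unfold Az
      field_simp
    rw [← h2]
    exact h1
  -- step 2: `A` is an integral multiple of `iz`
  have hL : TV.Li V γ (1 : V →* ℂ) := fun t _ v w _ => rfl
  obtain ⟨n, hn⟩ := tgi ℓ M hM G e V γ b hZ 1 hL χ hχI
  have hn1 : ∑ᶠ v : V, (cz V V γ (v : G) : ℂ) * (1 : V →* ℂ) v *
      mm M ℓ (Cu (v : G)) v (b v) χ χ = A := by
    rw [hA]
    refine finsum_congr fun v => ?_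
    rw [MonoidHom.one_apply, mul_one]
  rw [hn1] at hn
  have hVp : IsPGroup ℓ V := hZ.tp.pg
  obtain ⟨s, hs⟩ : ∃ s, Nat.card V = ℓ ^ s := IsPGroup.iff_card.1 hVp
  have hsC : (Nat.card V : ℂ) = (ℓ : ℂ) ^ s := by rw [hs]; push_cast; rfl
  have hdv : (ℓ : ℤ) ^ s ∣ n := by
    have h1 := (RM M).mul_mem hAR hiR
    have h2 : A * (iz V V γ : ℂ)⁻¹ = (n : ℂ) / (ℓ : ℂ) ^ s := by
      rw [← hsC]
      field_simp
      linear_combination hn
    rw [h2] at h1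
    exact dvd_RM hp M hM s n h1
  obtain ⟨m, hm⟩ := hdv
  have hAm : A = (iz V V γ : ℂ) * m := by
    have h1 : (Nat.card V : ℂ) * A = (Nat.card V : ℂ) * ((iz V V γ : ℂ) * m) := by
      rw [hn, hm, hsC]
      push_cast
      ring
    exact mul_left_cancel₀ hV0 h1
  -- step 3: the size
  have hpos : ∀ v : V, ∃ x : ℝ, 0 < x ∧ mm M ℓ (Cu (v : G)) v (b v) χ χ = (x : ℂ) := fun v =>
    (poz ℓ M hM G e V V γ b hZ v v.2).2 χ hχ
  choose x hx0 hx using hpos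
  obtain ⟨⟨y, hy, hyle⟩, -⟩ := pjz ℓ M hM G e V V γ b hZ V le_rfl hZ.nrm χ hχI
  have hAy : A = (y : ℂ) := by
    rw [← hy, hA]
    rfl
  have hysum : y = ∑ v : V, (cz V V γ (v : G) : ℝ) * x v := by
    have h1 : (y : ℂ) = ((∑ v : V, (cz V V γ (v : G) : ℝ) * x v : ℝ) : ℂ) := by
      rw [← hy]
      unfold Pw
      rw [finsum_eq_sum_of_fintype]
      push_cast
      exact Finset.sum_congr rfl fun v _ => by rw [hx v]
    exact_mod_cast h1
  have hapos : ∀ v : V, 0 < (cz V V γ (v : G) : ℝ) * x v := fun v =>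
    mul_pos (by exact_mod_cast hcz v v.2) (hx0 v)
  have hy0 : 0 < y := by
    rw [hysum]
    exact Finset.sum_pos (fun v _ => hapos v) ⟨1, Finset.mem_univ _⟩
  have hym : y = (iz V V γ : ℝ) * m := by
    have h1 : (y : ℂ) = (((iz V V γ : ℝ) * (m : ℝ) : ℝ) : ℂ) := by
      rw [← hAy, hAm]
      push_cast
      rfl
    exact_mod_cast h1
  have hiR0 : (0 : ℝ) < (iz V V γ : ℝ) := by exact_mod_cast hi0
  have hm1 : (m : ℝ) ≤ 1 := by
    by_contra h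
    have h' := not_le.1 h
    nlinarith
  have hm2 : (0 : ℝ) < (m : ℝ) := by
    by_contra h
    have h' := not_lt.1 h
    nlinarith
  have hm3 : m = 1 := by
    have h1 : m ≤ 1 := by exact_mod_cast hm1
    have h2 : 0 < m := by exact_mod_cast hm2
    omega
  rw [hAm, hm3, Int.cast_one, mul_one]

/-- row KSM (the hypotheses are `TV.tgi_`, `TB.zcp_`, `TB.poz_`, `TB.pjz_`, `TV.smm_` of
`Helper66_WAT/Asm.lean`) -/
theorem ksm (tgi : TV.TgiStmt) (zcp : TB.ZcpStmt) (poz : TB.PozStmt) (pjz : TB.PjzStmt)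
    (smm : TV.SmmStmt) : KsmStmt := by
  intro ℓ _ M _ hM G _ _ e V γ b hZ hS
  classical
  have hVf : Fintype V := Fintype.ofFinite V
  have hGf : Fintype G := Fintype.ofFinite G
  have hfinG : (Irr G).Finite := irr_finite'
  have hfinE : (IrrE M e).Finite := hfinG.subset fun _ h => h.1
  have h1 : ∑ᶠ χ ∈ IrrE M e, ∑ᶠ v : V, (cz V V γ (v : G) : ℂ) *
      mm M ℓ (Cu (v : G)) v (b v) χ χ = (iz V V γ : ℂ) * ((IrrE M e).ncard : ℂ) := by
    rw [finsum_mem_congr rfl fun χ hχ => ksm_one tgi zcp poz pjz ℓ M hM G e V γ b hZ hS χ hχ,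
      finsum_mem_eq_finite_toFinset_sum _ hfinE, Finset.sum_const, nsmul_eq_mul,
      Set.ncard_eq_toFinset_card _ hfinE, mul_comm]
  have h2 : ∑ᶠ χ ∈ IrrE M e, ∑ᶠ v : V, (cz V V γ (v : G) : ℂ) *
      mm M ℓ (Cu (v : G)) v (b v) χ χ =
      ((∑ᶠ v : V, cz V V γ (v : G) * ln (fun t : Cu (v : G) => b v t) : ℕ) : ℂ) := by
    rw [finsum_mem_eq_finite_toFinset_sum _ hfinE, finsum_eq_sum_of_fintype, Nat.cast_sum]
    simp only [finsum_eq_sum_of_fintype]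
    rw [Finset.sum_comm]
    refine Finset.sum_congr rfl fun v _ => ?_
    rw [← Finset.mul_sum, ← finsum_mem_eq_finite_toFinset_sum _ hfinE, Nat.cast_mul,
      smm ℓ M hM G e V γ b hZ v v.2]
  rw [h1] at h2
  exact_mod_cast h2

end Pool.Agent.PFD.H31
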